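import Mathlib
import Pool.Agent.H16.ORB.C

open Classical Finset

namespace Pool.ORB

theorem god_two_mul_le (p : ℕ) : 2 * p ≤ 2 ^ (p + 1) := by
  have := Nat.lt_two_pow_self (n := p)
  rw [pow_succ]
  omega

theorem god (hU : UNBStmt) (hI : INVStmt) : GODStmt := by
  intro E Nd Sg W _ _ _ D
  by_contra hcon
  push Not at hcon
  have h := hU D (Tp D.p) (Np D.p) (s0 E Nd Sg) (hI D).1
  have hall : (univ : Finset (E → W)).filter
      (fun a => D.Cont a (s0 E Nd Sg) (Tp D.p) (Np D.p)) = univ :=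
    filter_true_of_mem fun a _ => hcon a
  rw [hall] at h
  have hcard : ((univ : Finset (E → W)).card : ℝ) = ((D.q : ℝ) ^ 4) ^ Fintype.card E := by
    rw [card_univ, Fintype.card_fun, D.hW]
    push_cast
    rfl
  have hρ : (s0 E Nd Sg).ρ.card = 0 := rfl
  rw [hcard, hρ, pow_zero, mul_one] at h
  have hp := D.hp
  have hq : 2 ≤ D.q := by
    refine le_trans ?_ D.hq
    have h1 : 1 ≤ Hp D.p := by unfold Hp; omega
    have h2 : 1 ≤ Tp D.p ^ 2 := Nat.one_le_pow _ _ (by unfold Tp; omega)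
    calc 2 ≤ 16 * 1 * 1 := by norm_num
      _ ≤ 16 * Hp D.p * Tp D.p ^ 2 := Nat.mul_le_mul (Nat.mul_le_mul_left _ h1) h2
  have hqR : (2 : ℝ) ≤ (D.q : ℝ) := by exact_mod_cast hq
  have hpos : (0 : ℝ) < ((D.q : ℝ) ^ 4) ^ Fintype.card E := by positivity
  -- the constant
  have hC1 : D.C1 ≤ (2 : ℝ) ^ (2 + D.p + (D.p + 1) * (D.p + 2)) := by
    unfold Dat.C1
    have h2p : (2 * (D.p : ℝ)) ≤ 2 ^ (D.p + 1) := by exact_mod_cast god_two_mul_le D.p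
    have h3 : (2 * (D.p : ℝ)) ^ Hp D.p ≤ (2 ^ (D.p + 1)) ^ Hp D.p :=
      pow_le_pow_left₀ (by positivity) h2p _
    have h4 : ((2 : ℝ) ^ (D.p + 1)) ^ Hp D.p = 2 ^ ((D.p + 1) * (D.p + 2)) := by
      rw [← pow_mul]; rfl
    rw [h4] at h3
    calc 4 * 2 ^ D.p * (2 * (D.p : ℝ)) ^ Hp D.p
        ≤ 4 * 2 ^ D.p * 2 ^ ((D.p + 1) * (D.p + 2)) :=
          mul_le_mul_of_nonneg_left h3 (by positivity)
      _ = 2 ^ (2 + D.p + (D.p + 1) * (D.p + 2)) := by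
          rw [pow_add, pow_add]; norm_num
  have hC0 : 0 ≤ D.C1 := by unfold Dat.C1; positivity
  have hCT : D.C1 ^ Tp D.p ≤ (2 : ℝ) ^ (Np D.p - 1) := by
    calc D.C1 ^ Tp D.p ≤ ((2 : ℝ) ^ (2 + D.p + (D.p + 1) * (D.p + 2))) ^ Tp D.p :=
          pow_le_pow_left₀ hC0 hC1 _
      _ = (2 : ℝ) ^ (Np D.p - 1) := by
          rw [← pow_mul]
          congr 1
          unfold Np
          rw [Nat.add_sub_cancel, mul_comm]
  have hqN : (1 / (D.q : ℝ)) ^ Np D.p ≤ (1 / 2 : ℝ) ^ Np D.p := by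
    apply pow_le_pow_left₀ (by positivity)
    exact one_div_le_one_div_of_le (by norm_num) hqR
  have hN : Np D.p = (Np D.p - 1) + 1 := by unfold Np; omega
  have hfin : D.C1 ^ Tp D.p * (1 / (D.q : ℝ)) ^ Np D.p ≤ 1 / 2 := by
    calc D.C1 ^ Tp D.p * (1 / (D.q : ℝ)) ^ Np D.p
        ≤ (2 : ℝ) ^ (Np D.p - 1) * (1 / 2 : ℝ) ^ Np D.p :=
          mul_le_mul hCT hqN (by positivity) (by positivity)
      _ = (2 : ℝ) ^ (Np D.p - 1) * (1 / 2 : ℝ) ^ ((Np D.p - 1) + 1) := by rw [← hN]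
      _ = 1 / 2 := by
          rw [pow_succ, ← mul_assoc, ← mul_pow]
          norm_num
  rw [mul_assoc] at h
  have h5 : ((D.q : ℝ) ^ 4) ^ Fintype.card E * (D.C1 ^ Tp D.p * (1 / (D.q : ℝ)) ^ Np D.p) ≤
      ((D.q : ℝ) ^ 4) ^ Fintype.card E * (1 / 2) :=
    mul_le_mul_of_nonneg_left hfin hpos.le
  linarith

end Pool.ORB
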