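import Mathlib
import Pool.Agent.H16.ORB.C

open Classical Finset

namespace Pool.ORB

theorem low : LOWStmt := by
  intro E Nd Sg W _ _ _ D a s σ Ws Y U hcov hU hρ hFn hVal hlen
  obtain ⟨l, hl, h1, h2⟩ := hcov U hU hρ
  have hsub : s.ρ ∪ l.2 ⊆ U := union_subset hρ h2
  have hv : Val D.V a l.2 := fun f hf => hVal f (h2 hf)
  have hfn : Fn (s.ρ ∪ l.2) := fun f hf g hg h => hFn f (hsub hf) g (hsub hg) h
  have hle := hlen l hl hv hfn
  have hp : (1 : ℝ) ≤ (D.p : ℝ) := by exact_mod_cast D.hp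
  have h0 : (0 : ℝ) ≤ 1 / (8 * (D.p : ℝ)) := by positivity
  have h1' : 1 / (8 * (D.p : ℝ)) ≤ 1 := by
    rw [div_le_one (by positivity)]
    linarith
  unfold Dat.Phi
  refine le_trans (pow_le_pow_of_le_one h0 h1' hle) ?_
  exact single_le_sum (f := fun l : Lf E Nd Sg => (1 / (8 * (D.p : ℝ))) ^ l.2.card)
    (fun i _ => pow_nonneg h0 _) (mem_filter.2 ⟨hl, hv, hfn⟩)

end Pool.ORB
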